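import Pool.Agent.FS.FewLeaves.Up
import Pool.Agent.FS.FewLeaves.Low

namespace Pool.Agent.Results.MP_03797a_co.FewLeaves

open Pool.Agent.Lib.MP_03797a_co Pool.Agent.FS.FewLeaves

/-- The largest order of a tree with `l` leaves whose total dominator chromatic number is one
more than its total domination number is `15 l - 12`. -/
theorem result (l : ℕ) (hl : 2 ≤ l) :
    IsGreatest {n : ℕ | ∃ G : SimpleGraph (Fin n), G.IsTree ∧
      {v | ∃! w, G.Adj v w}.ncard = l ∧ chiTD G = gammaT G + 1} (15 * l - 12) := by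
  constructor
  · obtain ⟨k, rfl⟩ : ∃ k, l = k + 1 := ⟨l - 1, by omega⟩
    have hk : 1 ≤ k := by omega
    rw [show 15 * (k + 1) - 12 = 15 * k + 3 by omega]
    have : Nontrivial (Fin (15 * k + 3)) := Fin.nontrivial_iff_two_le.mpr (by omega)
    exact ⟨spider k, spider_tree k, spider_leaves hk,
      (main (spider_tree k)).mpr ⟨spider_marking hk, spider_not_family hk⟩⟩
  · rintro n ⟨G, hG, h1, h2⟩
    obtain ⟨v, w, hw, -⟩ : {v | ∃! w, G.Adj v w}.Nonempty :=
      Set.nonempty_of_ncard_ne_zero (by omega)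
    have : Nontrivial (Fin n) := ⟨v, w, hw.ne⟩
    obtain ⟨⟨P, m, hm⟩, -⟩ := (main hG).mp h2
    obtain ⟨τ, hτ⟩ := exists_typed hm
    have := upper hG hτ
    rw [Fintype.card_fin, h1] at this
    omega

end Pool.Agent.Results.MP_03797a_co.FewLeaves
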