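import Pool.Agent.Lib.MP_03797a_co.Main

set_option autoImplicit false

namespace Pool.Agent.Results.MP_03797a_co.MarkedStars

open Pool.Agent.Lib.MP_03797a_co

/-- A nontrivial tree has total dominator chromatic number one more than its total domination
number exactly when it has a marking and lies outside Henning's family. -/
theorem result {V : Type} [Fintype V] [Nontrivial V] (G : SimpleGraph V) (hG : G.IsTree) :
    chiTD G = gammaT G + 1 ↔ (∃ (P : Set V) (m : V → Mark), Marking G P m) ∧ ¬ InFamilyT G :=
  main hG

end Pool.Agent.Results.MP_03797a_co.MarkedStars
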